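import Pool.Agent.H10.M546.Final

set_option autoImplicit false

/-!
Distance sets of `(4,s)`-Salem sets.  New examples in every dimension `d ≥ 3`:

* `d = 3`: the set of the vectors `η w`, where `w` is in the unit sphere of `K^3` and `η` is in a
  group of elements of norm one of the quadratic extension `F` of the finite field `K`;
* `d = 4`: the set of the vectors `v ⊗ φ(v)`, `v ∈ F^2`, where `φ(x) = x^p`, in the four
  dimensional quadratic space of the `2 × 2` matrices over `F` with the determinant;
* `d + 2` from `d`: the product with an isotropic line.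

Both sets have `q^(d/2 - ε)` elements, energy `O(q^d)` and `o(q)` distances.
-/

namespace Pool.Agent.Results.MP_546591_co.SecondRegime

open Pool.Agent.H10.M546

/-- Lower bounds for `α(d,4,s)` in all dimensions `d ≥ 3`, which are larger than the conjectured
value whenever that value is smaller than `d/2`; that is, in every dimension `d ≥ 3` the
conjectured formula fails for all `s > (d+1)/(4d)` (`d` odd) and all `s > (d+2)/(4d)`
(`d` even). -/
theorem result : ∀ d : ℕ, 3 ≤ d → ∀ s : ℝ, 1 / 4 ≤ s → s ≤ 1 / 2 →
    min ((d : ℝ) / 2) ((d + (if Even d then 4 else 3)) / (8 * s)) ≤ alpha d s ∧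
      (conjectured d s < (d : ℝ) / 2 → conjectured d s < alpha d s) := by
  intro d hd s hs hs2
  rcases Nat.even_or_odd d with h | h
  · have hd4 : 4 ≤ d := by
      rcases h with ⟨k, hk⟩
      omega
    rw [if_pos h]
    exact ⟨lower_even d hd4 h s hs hs2, refute_even d hd4 h s hs hs2⟩
  · rw [if_neg (by rw [Nat.not_even_iff_odd]; exact h)]
    exact ⟨lower_odd d hd h s hs hs2, refute_odd d hd h s hs hs2⟩

end Pool.Agent.Results.MP_546591_co.SecondRegime
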