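import Pool.Agent.H10.M546.Final

set_option autoImplicit false

/-!
Distance sets of `(4,1/2)`-Salem sets in dimensions three and four: the exact threshold.
-/

namespace Pool.Agent.Results.MP_546591_co.SharpAtHalf

open Pool.Agent.H10.M546

/-- `α(3,4,1/2) = 3/2` and `α(4,4,1/2) = 2`: for `s = 1/2` Fraser's upper bound `d/(4s)` is the
exact value in the dimensions three and four. -/
theorem result : ∀ d : ℕ, d = 3 ∨ d = 4 → alpha d (1 / 2) = (d : ℝ) / 2 := by
  rintro d (rfl | rfl)
  · apply le_antisymm
    · refine (alpha_le 3 le_rfl (1 / 2) (by norm_num) le_rfl).trans ?_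
      norm_num
    · refine le_trans ?_ (lower_odd 3 le_rfl (by decide) (1 / 2) (by norm_num) le_rfl)
      norm_num
  · apply le_antisymm
    · refine (alpha_le 4 (by norm_num) (1 / 2) (by norm_num) le_rfl).trans ?_
      norm_num
    · refine le_trans ?_ (lower_even 4 le_rfl (by decide) (1 / 2) (by norm_num) le_rfl)
      norm_num

end Pool.Agent.Results.MP_546591_co.SharpAtHalf
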